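import Pool.Agent.Helper57_K9.Stmts
import Pool.Agent.Helper48_KF.Trm

/-!
# K9_TRA: an automorphism of order `ℓ ^ a` on a projective lattice whose reduction is free has
trace zero
-/

set_option autoImplicit false

open scoped BigOperators

noncomputable section

namespace Pool.Agent.PP.K9.H53

open Pool.Agent.Helper51_AWC Pool.Agent.Helper79_WRA Pool.Agent.PP Pool.Agent.PP.KF

/-- the kernel of a power of an endomorphism -/
theorem finrank_ker_pow {F : Type*} [Field F] {W : Type*} [AddCommGroup W] [Module F W]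
    [FiniteDimensional F W] (T : W →ₗ[F] W) (k : ℕ) :
    Module.finrank F (LinearMap.ker (T ^ k)) ≤ k * Module.finrank F (LinearMap.ker T) := by
  induction k with
  | zero =>
    rw [pow_zero, zero_mul, Module.End.one_eq_id, LinearMap.ker_id, finrank_bot]
  | succ k ih =>
    let g : LinearMap.ker (T ^ (k + 1)) →ₗ[F] W := (T ^ k) ∘ₗ (LinearMap.ker (T ^ (k + 1))).subtype
    have h1 := LinearMap.finrank_range_add_finrank_ker g
    have h2 : LinearMap.range g ≤ LinearMap.ker T := by
      rintro _ ⟨⟨v, hv⟩, rfl⟩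
      rw [LinearMap.mem_ker] at hv ⊢
      rw [pow_succ'] at hv
      exact hv
    have h3 : (LinearMap.ker g).map (LinearMap.ker (T ^ (k + 1))).subtype ≤ LinearMap.ker (T ^ k) := by
      rintro _ ⟨v, hv, rfl⟩
      exact hv
    have h4 := Submodule.finrank_mono h2
    have h5 := Submodule.finrank_mono h3
    rw [LinearEquiv.finrank_eq (Submodule.equivMapOfInjective
      (LinearMap.ker (T ^ (k + 1))).subtype
      (Submodule.subtype_injective _) (LinearMap.ker g)).symm] at h5
    rw [add_mul, one_mul]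
    omega

/-- a nilpotent endomorphism -/
theorem finrank_nil {F : Type*} [Field F] {W : Type*} [AddCommGroup W] [Module F W]
    [FiniteDimensional F W] (T : W →ₗ[F] W) (q : ℕ) (hT : T ^ q = 0) :
    Module.finrank F W ≤ q * Module.finrank F (LinearMap.ker T) := by
  have h1 := finrank_ker_pow T q
  rw [hT, LinearMap.ker_zero, finrank_top] at h1
  exact h1

/-- If the kernel of `U - 1` on the image of `P` is contained
in the image of `∑ U ^ i` on the image of `P`, then `P` has at most `q` times the rank of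
`(∑ U ^ i) P`. -/
theorem rank_charl {n : Type*} [Fintype n] [DecidableEq n] {F : Type*} [Field F] (l : ℕ)
    [Fact l.Prime] [CharP F l] (a : ℕ) {P U : Matrix n n F} (hP : P * P = P) (hU : U ^ l ^ a = 1)
    (hUP : U * P = P * U)
    (H : ∀ v : n → F, P.mulVec v = v → U.mulVec v = v →
      ∃ w, P.mulVec w = w ∧ v = ∑ i ∈ Finset.range (l ^ a), (U ^ i).mulVec w) :
    P.rank ≤ l ^ a * ((∑ i ∈ Finset.range (l ^ a), U ^ i) * P).rank := by
  set V : Submodule F (n → F) := LinearMap.range P.mulVecLin with hV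
  have hmem : ∀ v : n → F, v ∈ V ↔ P.mulVec v = v := by
    intro v
    constructor
    · rintro ⟨w, rfl⟩
      rw [Matrix.mulVecLin_apply, Matrix.mulVec_mulVec, hP]
    · intro h
      exact ⟨v, h⟩
  have hUV : ∀ v ∈ V, U.mulVecLin v ∈ V := by
    intro v hv
    rw [hmem] at hv ⊢
    rw [Matrix.mulVecLin_apply, Matrix.mulVec_mulVec, ← hUP, ← Matrix.mulVec_mulVec, hv]
  let UV : V →ₗ[F] V := U.mulVecLin.restrict hUV
  have hUVk : ∀ (k : ℕ) (v : V), ((UV ^ k) v : n → F) = (U ^ k).mulVec (v : n → F) := by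
    intro k
    induction k with
    | zero =>
      intro v
      rw [pow_zero, pow_zero, Matrix.one_mulVec, Module.End.one_apply]
    | succ k ih =>
      intro v
      rw [pow_succ, pow_succ, Module.End.mul_apply, ih, ← Matrix.mulVec_mulVec]
      rfl
  have hUVq : UV ^ l ^ a = 1 := by
    refine LinearMap.ext fun v => Subtype.ext ?_
    rw [hUVk, hU, Matrix.one_mulVec, Module.End.one_apply]
  have hnil : (UV - 1) ^ l ^ a = 0 := by
    have h1 : ((Polynomial.X : Polynomial F) - 1) ^ l ^ a = Polynomial.X ^ l ^ a - 1 ^ l ^ a :=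
      sub_pow_char_pow_of_commute _ _ (Commute.all _ _)
    have h2 := congrArg (Polynomial.aeval UV) h1
    rw [map_pow, map_sub, map_sub, map_pow, Polynomial.aeval_X, map_one, one_pow, map_one, hUVq,
      sub_self] at h2
    exact h2
  have h1 := finrank_nil (UV - 1) _ hnil
  have h6 : Module.finrank F V = P.rank := rfl
  rw [h6] at h1
  refine h1.trans (Nat.mul_le_mul_left _ ?_)
  have h4 : (LinearMap.ker (UV - 1)).map V.subtype ≤
      LinearMap.range ((∑ i ∈ Finset.range (l ^ a), U ^ i) * P).mulVecLin := by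
    rintro _ ⟨v, hv, rfl⟩
    have hv0 : (UV - 1) v = 0 := hv
    have hv1 : U.mulVec (v : n → F) = v := by
      have h5 := congrArg (fun z : V => (z : n → F)) hv0
      have h7 : ((UV - 1) v : V) = UV v - v := rfl
      simp only [h7] at h5
      exact sub_eq_zero.1 h5
    obtain ⟨w, hw1, hw2⟩ := H v ((hmem _).1 v.2) hv1
    refine ⟨w, ?_⟩
    rw [Matrix.mulVecLin_apply, ← Matrix.mulVec_mulVec, hw1, Matrix.sum_mulVec]
    exact hw2.symm
  have h5 := Submodule.finrank_mono h4
  rwa [LinearEquiv.finrank_eq (Submodule.equivMapOfInjective V.subtype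
    (Submodule.subtype_injective V) (LinearMap.ker (UV - 1))).symm] at h5

/-- sums of powers -/
theorem geo_mul {A : Type*} [Ring A] (x : A) (q : ℕ) (hx : x ^ q = 1) :
    x * (∑ i ∈ Finset.range q, x ^ i) = ∑ i ∈ Finset.range q, x ^ i := by
  have h1 := mul_geom_sum x q
  rw [hx, sub_self, sub_mul, one_mul] at h1
  exact sub_eq_zero.1 h1

theorem geo_sq {A : Type*} [Ring A] (x : A) (q : ℕ) (hx : x ^ q = 1) :
    (∑ i ∈ Finset.range q, x ^ i) * (∑ i ∈ Finset.range q, x ^ i) =
      q • ∑ i ∈ Finset.range q, x ^ i := by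
  have h1 : ∀ k : ℕ, x ^ k * (∑ i ∈ Finset.range q, x ^ i) = ∑ i ∈ Finset.range q, x ^ i := by
    intro k
    induction k with
    | zero => rw [pow_zero, one_mul]
    | succ k ih => rw [pow_succ, mul_assoc, geo_mul x q hx, ih]
  rw [Finset.sum_mul, Finset.sum_congr rfl fun i _ => h1 i, Finset.sum_const, Finset.card_range]

theorem map_geo {R K : Type*} [CommRing R] [CommRing K] (φ : R →+* K) {n : Type*} [Fintype n]
    [DecidableEq n] (z : R) (U P : Matrix n n R) (q : ℕ) :
    ((∑ k ∈ Finset.range q, (z • U) ^ k) * P).map φ =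
      (∑ k ∈ Finset.range q, (φ z • U.map φ) ^ k) * P.map φ := by
  have h1 : φ.mapMatrix (z • U) = φ z • U.map φ := by
    ext i j
    simp
  have h2 : ((∑ k ∈ Finset.range q, (z • U) ^ k) * P).map φ =
      φ.mapMatrix ((∑ k ∈ Finset.range q, (z • U) ^ k) * P) := rfl
  rw [h2, map_mul, map_sum]
  simp only [map_pow, h1]
  rfl

theorem root_sum {ω : ℂ} {q : ℕ} (hω : IsPrimitiveRoot ω q) {k : ℕ} (hk : k < q) (hk0 : k ≠ 0) :
    ∑ j ∈ Finset.range q, (ω ^ j) ^ k = 0 := by
  have h1 : ω ^ k ≠ 1 := hω.pow_ne_one_of_pos_of_lt hk0 hk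
  have h2 := mul_geom_sum (ω ^ k) q
  rw [← pow_mul, mul_comm k q, pow_mul, hω.pow_eq_one, one_pow, sub_self] at h2
  rcases mul_eq_zero.1 h2 with h3 | h3
  · exact absurd (sub_eq_zero.1 h3) h1
  · rw [← h3]
    refine Finset.sum_congr rfl fun j _ => ?_
    rw [← pow_mul, ← pow_mul, mul_comm]

theorem tra : TraStmt := by
  intro l hl M hM hlM n _ _ P U a ha hPR hUR hP hU hUP H
  classical
  let _ : Field (FF M) := Ideal.Quotient.field M
  have hl0 : (l : FF M) = 0 := by
    have := Ideal.Quotient.eq_zero_iff_mem.2 hlM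
    rwa [map_natCast] at this
  have hchar : CharP (FF M) l := (CharP.charP_iff_prime_eq_zero hl.out).2 hl0
  set q : ℕ := l ^ a with hq
  have hq0 : q ≠ 0 := pow_ne_zero _ hl.out.ne_zero
  have hq1 : 1 < q := Nat.one_lt_pow ha.ne' hl.out.one_lt
  have hqC : (q : ℂ) ≠ 0 := Nat.cast_ne_zero.2 hq0
  have hω := Complex.isPrimitiveRoot_exp q hq0
  set ω : ℂ := Complex.exp (2 * Real.pi * Complex.I / q) with hωd
  -- matrices over the local ring
  let P' : Matrix n n (RM M) := fun i j => ⟨P i j, hPR i j⟩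
  let U' : Matrix n n (RM M) := fun i j => ⟨U i j, hUR i j⟩
  let ι : RM M →+* ℂ := (RM M).subtype
  have hι : Function.Injective ι := Subtype.val_injective
  have hqs : Function.Surjective (rrHom M) := by
    intro c
    obtain ⟨z, hz, h⟩ := rr_surj c
    exact ⟨⟨z, hz⟩, h⟩
  have eP : P'.map ι = P := rfl
  have eU : U'.map ι = U := rfl
  have fP : P'.map (rrHom M) = P.map (rr M) := rfl
  have fU : U'.map (rrHom M) = U.map (rr M) := rfl
  have hinjM : Function.Injective fun A : Matrix n n (RM M) => A.map ι := by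
    intro A B h
    ext i j
    exact congrFun (congrFun h i) j
  have hP' : P' * P' = P' := by
    apply hinjM
    change (P' * P').map ι = P'.map ι
    rw [Matrix.map_mul, eP, hP]
  have hUP' : U' * P' = P' * U' := by
    apply hinjM
    change (U' * P').map ι = (P' * U').map ι
    rw [Matrix.map_mul, Matrix.map_mul, eP, eU, hUP]
  have hU' : U' ^ q = 1 := by
    apply hinjM
    change ι.mapMatrix (U' ^ q) = ι.mapMatrix 1
    rw [map_pow, map_one]
    exact hU
  set Pb : Matrix n n (FF M) := P'.map (rrHom M) with hPb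
  set Ub : Matrix n n (FF M) := U'.map (rrHom M) with hUb
  have hPb1 : Pb * Pb = Pb := by rw [hPb, ← Matrix.map_mul, hP']
  have hUPb : Ub * Pb = Pb * Ub := by rw [hPb, hUb, ← Matrix.map_mul, ← Matrix.map_mul, hUP']
  have hUb1 : Ub ^ q = 1 := by
    change ((rrHom M).mapMatrix U') ^ q = 1
    rw [← map_pow, hU', map_one]
  -- the root of unity
  have hωR : ω ∈ RM M := by
    refine RM_of_int ?_
    refine ⟨Polynomial.X ^ q - 1, Polynomial.monic_X_pow_sub_C 1 hq0, ?_⟩
    simp [hω.pow_eq_one]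
  let ω' : RM M := ⟨ω, hωR⟩
  have hω'1 : ω' ^ q = 1 := by
    apply hι
    rw [map_pow, map_one]
    exact hω.pow_eq_one
  have hω2 : rrHom M ω' = 1 := by
    have h1 : (rrHom M ω' - 1) ^ l ^ a = (rrHom M ω') ^ l ^ a - 1 ^ l ^ a :=
      sub_pow_char_pow_of_commute _ _ (Commute.all _ _)
    rw [← map_pow, hω'1, map_one, one_pow, sub_self] at h1
    exact sub_eq_zero.1 (pow_eq_zero_iff (pow_ne_zero _ hl.out.ne_zero) |>.1 h1)
  -- the projections
  let N : ℂ → Matrix n n ℂ := fun z => (∑ k ∈ Finset.range q, (z • U) ^ k) * P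
  have hzU : ∀ z : ℂ, z ^ q = 1 → (z • U) ^ q = 1 := by
    intro z hz
    rw [smul_pow, hz, hU, one_smul]
  have hN2 : ∀ z : ℂ, z ^ q = 1 → N z * N z = (q : ℂ) • N z := by
    intro z hz
    have h1 : Commute P (∑ k ∈ Finset.range q, (z • U) ^ k) := by
      refine Commute.sum_right _ _ _ fun k _ => ?_
      refine Commute.pow_right ?_ k
      exact Commute.smul_right (hUP.symm) z
    have h2 := geo_sq (z • U) q (hzU z hz)
    change ((∑ k ∈ Finset.range q, (z • U) ^ k) * P) * ((∑ k ∈ Finset.range q, (z • U) ^ k) * P) =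
      (q : ℂ) • ((∑ k ∈ Finset.range q, (z • U) ^ k) * P)
    rw [mul_assoc, ← mul_assoc P, h1.eq, mul_assoc, hP, ← mul_assoc, h2, smul_mul_assoc,
      Nat.cast_smul_eq_nsmul]
  have hUN : ∀ z : ℂ, z ^ q = 1 → U * N z = z⁻¹ • N z := by
    intro z hz
    have hz0 : z ≠ 0 := by
      intro h
      rw [h, zero_pow hq0] at hz
      exact zero_ne_one hz
    have h1 := geo_mul (z • U) q (hzU z hz)
    have h2 : z • (U * N z) = N z := by
      change z • (U * ((∑ k ∈ Finset.range q, (z • U) ^ k) * P)) =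
        (∑ k ∈ Finset.range q, (z • U) ^ k) * P
      rw [← mul_assoc, ← smul_mul_assoc, ← smul_mul_assoc, h1]
    rw [← h2, smul_smul, inv_mul_cancel₀ hz0, one_smul]
    rw [h2]
  have hrk : ∀ z : ℂ, z ^ q = 1 → (N z).trace = (q : ℂ) * ((N z).rank : ℂ) := by
    intro z hz
    have h1 : ((q : ℂ)⁻¹ • N z) * ((q : ℂ)⁻¹ • N z) = (q : ℂ)⁻¹ • N z := by
      rw [Matrix.smul_mul, Matrix.mul_smul, hN2 z hz, smul_smul, smul_smul]
      congr 1
      field_simp
    have h2 := KF.H48.trace_idem h1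
    have h3 : ((q : ℂ)⁻¹ • N z).rank = (N z).rank :=
      Matrix.rank_smul_of_mem_nonZeroDivisors _
        (mem_nonZeroDivisors_of_ne_zero (inv_ne_zero hqC))
    rw [h3, Matrix.trace_smul, smul_eq_mul] at h2
    rw [← h2, ← mul_assoc, mul_inv_cancel₀ hqC, one_mul]
  -- the ranks
  set r : ℕ := ((∑ i ∈ Finset.range q, Ub ^ i) * Pb).rank with hr
  have hle : ∀ j : ℕ, r ≤ (N (ω ^ j)).rank := by
    intro j
    have h1 := KF.H48.rank_red ι hι (rrHom M) hqs
      ((∑ k ∈ Finset.range q, ((ω' ^ j) • U') ^ k) * P')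
    rw [map_geo, map_geo, map_pow, hω2, one_pow, one_smul, map_pow] at h1
    exact h1
  have a1 : Pb.rank ≤ P.rank := by rw [← eP]; exact KF.H48.rank_red ι hι (rrHom M) hqs P'
  have a2 : (1 - Pb).rank ≤ (1 - P).rank := by
    have := KF.H48.rank_red ι hι (rrHom M) hqs (1 - P')
    rw [Matrix.map_sub _ (map_sub _), Matrix.map_sub _ (map_sub _), Matrix.map_one _ (map_zero ι)
      (map_one ι), Matrix.map_one _ (map_zero _) (map_one _)] at this
    exact this
  have a3 := KF.H48.rank_idem_compl hPb1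
  have a4 := KF.H48.rank_idem_compl hP
  have a5 : P.rank = Pb.rank := by omega
  have a6 : Pb.rank ≤ q * r := by
    refine rank_charl l a hPb1 hUb1 hUPb ?_
    intro v h1 h2
    obtain ⟨w, hw1, hw2⟩ := H v h1 h2
    exact ⟨w, hw1, hw2⟩
  -- the sum of the projections
  have hωj : ∀ j : ℕ, (ω ^ j) ^ q = 1 := by
    intro j
    rw [← pow_mul, mul_comm, pow_mul, hω.pow_eq_one, one_pow]
  have hsum : ∑ j ∈ Finset.range q, N (ω ^ j) = (q : ℂ) • P := by
    have h1 : ∀ j ∈ Finset.range q, N (ω ^ j) =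
        (∑ k ∈ Finset.range q, ((ω ^ j) ^ k) • U ^ k) * P := by
      intro j _
      change (∑ k ∈ Finset.range q, ((ω ^ j) • U) ^ k) * P = _
      simp only [smul_pow]
    rw [Finset.sum_congr rfl h1, ← Finset.sum_mul, Finset.sum_comm]
    have h2 : ∀ k ∈ Finset.range q, ∑ j ∈ Finset.range q, ((ω ^ j) ^ k) • U ^ k =
        if k = 0 then (q : ℂ) • (1 : Matrix n n ℂ) else 0 := by
      intro k hk
      rw [← Finset.sum_smul]
      split_ifs with h0
      · subst h0
        simp
      · rw [root_sum hω (Finset.mem_range.1 hk) h0, zero_smul]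
    rw [Finset.sum_congr rfl h2, Finset.sum_ite_eq' (Finset.range q) 0, if_pos
      (Finset.mem_range.2 (Nat.pos_of_ne_zero hq0)), smul_mul_assoc, one_mul]
  have c1 : ∑ j ∈ Finset.range q, ((N (ω ^ j)).rank : ℂ) = (P.rank : ℂ) := by
    have h1 := congrArg Matrix.trace hsum
    rw [Matrix.trace_sum, Matrix.trace_smul, smul_eq_mul, KF.H48.trace_idem hP,
      Finset.sum_congr rfl fun j _ => hrk (ω ^ j) (hωj j), ← Finset.mul_sum] at h1
    exact mul_left_cancel₀ hqC h1
  have c2 : ∑ j ∈ Finset.range q, (N (ω ^ j)).rank = P.rank := by exact_mod_cast c1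
  have c3 : ∀ j ∈ Finset.range q, (N (ω ^ j)).rank = r := by
    have h1 : ∑ j ∈ Finset.range q, r = ∑ j ∈ Finset.range q, (N (ω ^ j)).rank := by
      refine le_antisymm (Finset.sum_le_sum fun j _ => hle j) ?_
      rw [c2, Finset.sum_const, Finset.card_range, smul_eq_mul, a5]
      exact a6
    intro j hj
    exact ((Finset.sum_eq_sum_iff_of_le fun j _ => hle j).1 h1 j hj).symm
  -- the trace
  have d1 : (q : ℂ) * (U * P).trace = 0 := by
    have h1 : (q : ℂ) • (U * P) = ∑ j ∈ Finset.range q, (ω ^ j)⁻¹ • N (ω ^ j) := by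
      rw [← Matrix.mul_smul, ← hsum, Finset.mul_sum]
      exact Finset.sum_congr rfl fun j _ => hUN _ (hωj j)
    have h2 := congrArg Matrix.trace h1
    rw [Matrix.trace_smul, smul_eq_mul, Matrix.trace_sum] at h2
    rw [h2]
    have h3 : ∀ j ∈ Finset.range q, ((ω ^ j)⁻¹ • N (ω ^ j)).trace =
        ((q : ℂ) * (r : ℂ)) * ((ω⁻¹ ^ j) ^ 1) := by
      intro j hj
      rw [Matrix.trace_smul, smul_eq_mul, hrk _ (hωj j), c3 j hj, pow_one, inv_pow, mul_comm]
    rw [Finset.sum_congr rfl h3, ← Finset.mul_sum,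
      root_sum (IsPrimitiveRoot.inv hω) hq1 one_ne_zero, mul_zero]
  exact (mul_eq_zero.1 d1).resolve_left hqC

end Pool.Agent.PP.K9.H53
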